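import Pool.Agent.TH235.PQ.Final

/-! Equivalent forms of the PEPS approximation of gapped ground states, at every scale
`exp (C (log L)^k)` with the same `k`. -/

set_option autoImplicit false
set_option linter.unusedSectionVars false

open scoped BigOperators Matrix
open Finset Pool.Agent.TH235.PP Pool.Agent.TH235.PQ
  Pool.Agent.Results.MP_953b23_mp.OverlapBoosting
  Pool.Agent.Results.MP_953b23_mp.ThermalCriterion

namespace Pool.Agent.Y159.PepsScale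

variable {d R : ℕ} {h : BoxOp d R} {Δ : ℝ} {Ψ : ∀ L : ℕ, (Site L → Fin d) → ℂ}

/-- overlap with an approximable family, at scale `k` -/
theorem transferK {Ψ' : ∀ L : ℕ, (Site L → Fin d) → ℂ} {k : ℕ}
    (hn : ∃ L₀ : ℕ, ∀ (L : ℕ) [NeZero L],
      L₀ ≤ L → normSq (Ψ L) = 1 ∧ normSq (Ψ' L) = 1)
    (hov : ∃ (C : ℝ) (L₀ : ℕ), ∀ (L : ℕ) [NeZero L], L₀ ≤ L →
      Real.exp (-(C * Real.log L ^ k)) ≤ ‖ip (Ψ L) (Ψ' L)‖)
    (hA : ∀ a : ℝ, 0 < a → ∃ C, Approx Ψ' k C fun L => Real.exp (-(a * Real.log L ^ k))) :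
    ∃ C, PureOverlap Ψ k C := by
  obtain ⟨L₁, hL₁⟩ := hn
  obtain ⟨C, L₂, hL₂⟩ := hov
  obtain ⟨C', L₃, hL₃⟩ := hA (|C| + 1) (by positivity)
  refine ⟨|C'| + |C| + 1, max 3 (max L₁ (max L₂ L₃)), ?_⟩
  intro L _ hL
  simp only [max_le_iff] at hL
  obtain ⟨h3, ha, hb, hc'⟩ := hL
  obtain ⟨hn1, hn2⟩ := hL₁ L ha
  have hov := hL₂ L hb
  obtain ⟨D, ψ, hD, hψ, herr⟩ := hL₃ L hc'
  rw [sqrt_normSq] at herr
  beta_reduce at herr
  have hl1 : 1 ≤ Real.log L ^ k := one_le_pow₀ (log_ge_one h3)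
  generalize Real.log L ^ k = l at hl1 hD herr hov ⊢
  have hC0 := abs_nonneg C
  have hC0' := abs_nonneg C'
  set θ : ℝ := Real.exp (-(|C| * l)) with hθ
  have hθ0 : 0 < θ := Real.exp_pos _
  have hθ1 : θ ≤ 1 := Real.exp_le_one_iff.2 (by
    have : 0 ≤ |C| * l := by positivity
    linarith)
  have e1 : Real.exp (-((|C| + 1) * l)) ≤ 2 / 5 * θ := by
    have h5 : Real.exp (-((|C| + 1) * l)) ≤ Real.exp (-1) * θ := by
      rw [hθ, ← Real.exp_add]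
      apply Real.exp_le_exp.2
      linarith
    exact h5.trans (mul_le_mul_of_nonneg_right exp_neg_one_lt hθ0.le)
  have e2 : θ ≤ ‖ip (Ψ L) (Ψ' L)‖ := by
    refine le_trans (Real.exp_le_exp.2 ?_) hov
    have := mul_le_mul_of_nonneg_right (le_abs_self C) (by positivity : (0 : ℝ) ≤ l)
    linarith
  have n1 : nr (Ψ L) = 1 := nr_one _ hn1
  have n2 : nr (Ψ' L) = 1 := nr_one _ hn2
  have e3 : ‖ip (Ψ L) (ψ - Ψ' L)‖ ≤ nr (ψ - Ψ' L) := by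
    rw [ip_eq]
    refine (norm_inner_le_norm _ _).trans ?_
    have k1 : ‖(WithLp.toLp 2 (Ψ L) : EuclideanSpace ℂ (Site L → Fin d))‖ = 1 := n1
    rw [k1, one_mul]
    exact le_rfl
  have e4 : 3 / 5 * θ ≤ ‖ip (Ψ L) ψ‖ := by
    have h5 : ip (Ψ L) (Ψ' L) = ip (Ψ L) ψ - ip (Ψ L) (ψ - Ψ' L) := by
      rw [ip_eq, ip_eq, ip_eq, ← inner_sub_right, ← WithLp.toLp_sub, sub_sub_cancel]
    have h6 := norm_sub_le (ip (Ψ L) ψ) (ip (Ψ L) (ψ - Ψ' L))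
    rw [← h5] at h6
    linarith
  have e5 : nr ψ ≤ 7 / 5 := by
    have := nr_add (ψ - Ψ' L) (Ψ' L)
    rw [sub_add_cancel] at this
    linarith
  have e6 : 0 < nr ψ := by
    rcases (nr_nonneg ψ).lt_or_eq with h5 | h5
    · exact h5
    · exfalso
      have h6 : ‖ip (Ψ L) ψ‖ ≤ nr (Ψ L) * nr ψ := by
        rw [ip_eq]
        exact norm_inner_le_norm _ _
      rw [← h5, mul_zero] at h6
      linarith
  obtain ⟨u1, u2, u3⟩ := unit_of hψ e6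
  refine ⟨D, _, hD.trans (Real.exp_le_exp.2 ?_), u1, u2, ?_⟩
  · have h5 : C' * l ≤ |C'| * l := mul_le_mul_of_nonneg_right (le_abs_self _) (by linarith)
    have h6 : 0 ≤ (|C| + 1) * l := by positivity
    linarith
  · rw [u3, le_div_iff₀ e6]
    have h5 : Real.exp (-((|C'| + |C| + 1) * l)) ≤ 2 / 5 * θ := by
      have h6 : Real.exp (-((|C'| + |C| + 1) * l)) ≤ Real.exp (-1) * θ := by
        rw [hθ, ← Real.exp_add]
        apply Real.exp_le_exp.2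
        have h8 : 0 ≤ |C'| * l := by positivity
        linarith
      exact h6.trans (mul_le_mul_of_nonneg_right exp_neg_one_lt hθ0.le)
    calc Real.exp (-((|C'| + |C| + 1) * l)) * nr ψ ≤ 2 / 5 * θ * (7 / 5) :=
          mul_le_mul h5 e5 e6.le (by positivity)
      _ ≤ ‖ip (Ψ L) ψ‖ := by linarith

/-- all the equivalent forms, at scale `k` -/
theorem equivK (hF : GappedFamily h Δ Ψ) (k : ℕ) (hk : 1 ≤ k) :
    List.TFAE [
      ∀ c : ℝ, 0 < c → ∃ C : ℝ, Approx Ψ k C fun L => (L : ℝ) ^ (-c),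
      ∃ c : ℝ, 0 < c ∧ ∃ C : ℝ, Approx Ψ k C fun L => (L : ℝ) ^ (-c),
      ∀ a : ℝ, 0 < a → ∃ C : ℝ, Approx Ψ k C fun L => Real.exp (-(a * Real.log L ^ k)),
      ∃ C : ℝ, PureOverlap Ψ k C,
      ∃ C : ℝ, MixedOverlap Ψ k C,
      ∃ C : ℝ, LowEnergy h Δ Ψ k C,
      ∃ (R' : ℕ) (h' : BoxOp d R') (Δ' : ℝ) (Ψ' : ∀ L : ℕ, (Site L → Fin d) → ℂ),
        GappedFamily h' Δ' Ψ' ∧
        (∀ c : ℝ, 0 < c → ∃ C : ℝ, Approx Ψ' k C fun L => (L : ℝ) ^ (-c)) ∧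
        ∃ (C : ℝ) (L₀ : ℕ), ∀ (L : ℕ) [NeZero L], L₀ ≤ L →
          Real.exp (-(C * Real.log L ^ k)) ≤ ‖ip (Ψ L) (Ψ' L)‖] := by
  have h43 : ∀ {R : ℕ} {h : BoxOp d R} {Δ : ℝ} {Ψ : ∀ L : ℕ, (Site L → Fin d) → ℂ},
      GappedFamily h Δ Ψ → (∃ C : ℝ, PureOverlap Ψ k C) →
      ∀ a : ℝ, 0 < a → ∃ C : ℝ, Approx Ψ k C fun L => Real.exp (-(a * Real.log L ^ k)) := by
    intro R h Δ Ψ hF ⟨C', hP⟩ a ha
    exact pure_to_superK amp0 hF hP k a hk le_rfl ha.le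
  tfae_have 1 → 2 := fun h1 => ⟨1, one_pos, h1 1 one_pos⟩
  tfae_have 2 → 4 := fun ⟨_, hc, _, hA⟩ => Equ.one_to_pure hF hc hA
  tfae_have 4 → 3 := fun h4 => h43 hF h4
  tfae_have 3 → 1 := fun h3 c hc => by
    obtain ⟨C, hC⟩ := h3 c hc
    exact ⟨C, exp_to_rpow' hk hc hC⟩
  tfae_have 1 → 6 := fun h1 => Equ.all_to_low hF (h1 2 two_pos)
  tfae_have 6 → 5 := fun h6 => Equ.low_to_mixed hF h6
  tfae_have 5 → 4 := fun h5 => Equ.mixed_to_pure h5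
  tfae_have 1 → 7 := by
    intro h1
    refine ⟨R, h, Δ, Ψ, hF, h1, 0, ?_⟩
    obtain ⟨L₀, hL₀⟩ := hF.ground
    refine ⟨L₀, fun L _ hL => ?_⟩
    rw [ip_self_one (Ψ L) (hL₀ L hL).1]
    simp
  tfae_have 7 → 4 := by
    rintro ⟨R', h', Δ', Ψ', hF', hA', hov⟩
    have h3 := h43 hF' (by
      obtain ⟨C, hC⟩ := hA' 1 one_pos
      exact Equ.one_to_pure hF' one_pos hC)
    obtain ⟨L₁, h1⟩ := hF.ground
    obtain ⟨L₂, h2⟩ := hF'.ground
    exact transferK (Ψ := Ψ) ⟨max L₁ L₂, fun L _ hL =>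
      ⟨(h1 L ((le_max_left _ _).trans hL)).1, (h2 L ((le_max_right _ _).trans hL)).1⟩⟩ hov h3
  tfae_finish

/-- thermal criterion at scale `k` -/
theorem thermK (hF : GappedFamily h Δ Ψ) (k : ℕ) (hk : 1 ≤ k) {C : ℝ}
    (hS : SmallPartition h Ψ k C) :
    ∀ c : ℝ, 0 < c → ∃ C : ℝ, Approx Ψ k C fun L => (L : ℝ) ^ (-c) := by
  intro c hc
  obtain ⟨C', hC'⟩ := small_to_approxK therm0 hF hS k c hk le_rfl hc.le
  exact ⟨C', exp_to_rpow' hk hc hC'⟩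

/-- the bond dimension is polynomial in `e^β`, `L`, the partition function and `1 / ε` -/
theorem boundZ (d R : ℕ) (h : BoxOp d (R + 1)) (hh : h.IsHermitian) (Δ : ℝ) (hΔ : 0 < Δ) :
    ∃ C : ℝ, 0 < C ∧ ∀ (L : ℕ) [NeZero L], 2 ≤ L → R + 1 ≤ L →
      ∀ Ψ : (Site L → Fin d) → ℂ, normSq Ψ = 1 → IsGappedGround (ham h L) Δ Ψ →
      ∀ (hH : (ham h L).IsHermitian) (β ε : ℝ), 0 ≤ β → 0 < ε → ε ≤ 1 →
      ∃ (D : ℕ) (ψ : (Site L → Fin d) → ℂ),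
        (D : ℝ) ≤ (Real.exp β * L * partition hH (energy (ham h L) Ψ) β / ε) ^ C ∧
          IsPEPS D ψ ∧ Real.sqrt (normSq (ψ - Ψ)) ≤ ε := by
  obtain ⟨C, hC, hq⟩ := therm0 d R h hh Δ hΔ
  refine ⟨C, hC, ?_⟩
  intro L _ hL hR Ψ hΨ hg hH β ε hβ hε hε1
  obtain ⟨D, ψ, h1, h2, h3⟩ := hq L hL hR Ψ hΨ hg hH β ε hβ hε hε1
  refine ⟨D, ψ, ?_, h2, by rw [sqrt_normSq]; exact h3⟩
  refine h1.trans (le_of_eq ?_)
  have hL0 : (0 : ℝ) < L := by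
    have : 1 ≤ L := by omega
    exact_mod_cast this
  have hZdef : (∑ j, Real.exp (-(β * (hH.eigenvalues j -
      (ip Ψ (ham h L *ᵥ Ψ)).re)))) = partition hH (energy (ham h L) Ψ) β := rfl
  rw [hZdef]
  obtain ⟨e1, j0, e2⟩ := energy_le (Ψ := fun L' => if hh : L' = L then hh ▸ Ψ else 0)
    (Δ := Δ) hH hΔ (by simpa using hΨ) (by simpa using hg)
  simp only [dite_true] at e2
  have hZ1 : 0 < partition hH (energy (ham h L) Ψ) β := by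
    unfold partition
    exact Finset.sum_pos (fun j _ => Real.exp_pos _) ⟨j0, mem_univ _⟩
  generalize partition hH (energy (ham h L) Ψ) β = Z at hZ1 ⊢
  have e3 : Real.log (Real.exp β * L * Z / ε) = β + Real.log L + Real.log Z - Real.log ε := by
    rw [Real.log_div (by positivity) hε.ne', Real.log_mul (by positivity) hZ1.ne',
      Real.log_mul (by positivity) hL0.ne', Real.log_exp]
  rw [Real.rpow_def_of_pos (by positivity), e3, one_div, Real.log_inv]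
  congr 1
  ring

end Pool.Agent.Y159.PepsScale
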